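import Pool.Agent.H16.Irr.Assembly

/-!
# The degree of irrationality is not lower semicontinuous in smooth families of surfaces

We exhibit a smooth projective family of complex surfaces over the affine curve
`T = {λ : λ³ ≠ 1}` for which the set of closed points `t` with `irr (X_t) ≤ 4` is not closed.

The fibre over `λ` is an isotrivial elliptic surface over the genus 5 curve
`B : ε² + ε + t¹² = 0`, with generic fibre the plane cubic
`S_λ : X³ + ε' Y³ + ε Z³ = 3 λ t⁴ X Y Z`, `ε' = -1 - ε`, over the field `F = ℂ(B)`.
It is shown that `irr (X_λ) ≤ 4` if and only if `S_λ` has a point over `F`. This happens for
infinitely many `λ` (start from `λ = 0` and apply 3-isogenies) and not for `λ = 8` (reduction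
modulo a place of `ℂ` above `7`).
-/

open Pool.Agent.H16

/-- There is a smooth family of complex surfaces for which the degree of irrationality of the
fibres is not a lower semicontinuous function on the set of closed points of the base, with its
Zariski topology. -/
theorem Pool.Agent.Results.MP_06906d_ag.IrrNotSemicontinuous.result :
    ∃ F : SurfaceFamily, ¬ LowerSemicontinuous F.irrFibre :=
  Assembly.not_lowerSemicontinuous
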